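import Pool.Agent.OMF.Stmts
import Pool.Agent.Helper38_GTO.Fin

/-! Squad OMF, row BPR: bad pairs (point, line). -/

namespace Pool.Agent.OMF.H46

open Finset Pool.Agent.GTO Pool.Agent.GTO.H38
open scoped Classical

theorem ne_uv {ι : Type} [Fintype ι] (a : ι → V) (d : Dat ι) (hd : Good a d) : d.u ≠ d.v := by
  intro h
  have := hd.1
  simp only [List.nodup_cons, List.mem_cons] at this
  tauto

theorem bpr (hBas : BasStmt) (hCnn : CnnStmt) (hLvx : LvxStmt) : BprStmt := by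
  intro ι _ a hPI hcard N
  have hBas6 := hBas.2.2.2.2.2 ι a hPI
  obtain ⟨hB1, hB2, -, hB4, -, -, hB7⟩ := hBas6
  obtain ⟨hL1, hL2⟩ := hLvx ι a hPI hcard
  -- the counting function
  let bd : ι → ℕ := fun p => {d : Dat ι | (Good a d ∧ ¬ NGood a N d) ∧ d.u = p}.ncard
  let bf : ι → ℕ := fun p =>
    (univ.filter fun σ => Tope a σ ∧ Tope a (flp σ p) ∧ ¬ IsGood a σ).card
  let ng : ι → ℕ := fun p => bd p + bf p
  have hsum1 : ∑ p, bd p ≤ 6 * N * EE a := by
    have h := hCnn ι a hPI N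
    rw [ncard_fib] at h
    exact h
  have hsum2 : ∑ p, bf p = BF a := by
    unfold BF
    rw [Finset.card_eq_sum_card_fiberwise (f := Prod.snd) (t := univ) (by intro x _; simp)]
    refine Finset.sum_congr rfl ?_
    intro p _
    simp only [bf]
    refine Finset.card_bij (fun σ _ => (σ, p)) ?_ ?_ ?_
    · intro σ hσ
      rw [mem_filter] at hσ
      rw [mem_filter, mem_filter]
      exact ⟨⟨mem_univ _, hσ.2⟩, rfl⟩
    · intro σ _ τ _ h
      exact (Prod.mk.inj h).1
    · rintro ⟨σ, q⟩ h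
      rw [mem_filter, mem_filter] at h
      obtain ⟨⟨-, h⟩, rfl⟩ := h
      exact ⟨σ, by rw [mem_filter]; exact ⟨mem_univ _, h⟩, rfl⟩
  -- one point
  have hU : ∀ p : ι, 4 * ((lns a).filter fun ℓ => p ∈ ℓ ∧ ¬ Sees a N p ℓ).card ≤ ng p := by
    intro p
    have hrr : {d : Dat ι | NGood a N d ∧ d.u = p}.ncard + ng p = 4 * rr a p := by
      have h1 := hL1 p
      have h2 := ncard_split (fun d : Dat ι => Good a d ∧ d.u = p) (fun d => NGood a N d)
      have h3 : {d : Dat ι | (Good a d ∧ d.u = p) ∧ NGood a N d}.ncard =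
          {d : Dat ι | NGood a N d ∧ d.u = p}.ncard := by
        congr 1
        ext d
        simp only [Set.mem_ofPred_eq]
        constructor
        · rintro ⟨⟨_, h⟩, h'⟩
          exact ⟨h', h⟩
        · rintro ⟨h, h'⟩
          exact ⟨⟨h.1, h'⟩, h⟩
      have h4 : {d : Dat ι | (Good a d ∧ d.u = p) ∧ ¬ NGood a N d}.ncard = bd p := by
        simp only [bd]
        congr 1
        ext d
        simp only [Set.mem_ofPred_eq]
        constructor
        · rintro ⟨⟨h1, h2⟩, h3⟩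
          exact ⟨⟨h1, h3⟩, h2⟩
        · rintro ⟨⟨h1, h2⟩, h3⟩
          exact ⟨⟨h1, h3⟩, h2⟩
      rw [h3, h4] at h2
      simp only [ng, bf]
      omega
    let Lf : Finset (Finset ι) := (lns a).filter fun ℓ => p ∈ ℓ ∧ Sees a N p ℓ
    have hLf4 : {d : Dat ι | NGood a N d ∧ d.u = p}.ncard ≤ 4 * Lf.card := by
      refine ncard_le_four (fun d => NGood a N d ∧ d.u = p) (fun d => ln a d.u d.v) Lf ?_ ?_
      · rintro d ⟨hd, hdu⟩
        have hne := ne_uv a d hd.1
        simp only [Lf, mem_filter]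
        refine ⟨?_, ?_, d, hd, hdu, rfl⟩
        · unfold lns
          exact mem_image.2 ⟨(d.u, d.v), by simp [hne], rfl⟩
        · rw [← hdu]
          exact (hB2 _ _ hne).1
      · intro ℓ
        have := finite_dat ι
        refine le_trans (Set.ncard_le_ncard ?_ (Set.toFinite _)) (hL2 p ℓ)
        rintro d ⟨⟨hd, hdu⟩, hl⟩
        exact ⟨hd.1, hdu, hl⟩
    have hsplit : rr a p = Lf.card + ((lns a).filter fun ℓ => p ∈ ℓ ∧ ¬ Sees a N p ℓ).card := by
      have h0 : rr a p = ((lns a).filter fun ℓ => p ∈ ℓ).card := rfl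
      rw [h0, ← Finset.card_filter_add_card_filter_not (s := (lns a).filter fun ℓ => p ∈ ℓ)
        (fun ℓ => Sees a N p ℓ)]
      simp only [Lf, Finset.filter_filter]
    omega
  -- double counting
  have hdc : ∑ ℓ ∈ lns a, (ℓ.filter fun x => ¬ Sees a N x ℓ).card
      = ∑ p : ι, ((lns a).filter fun ℓ => p ∈ ℓ ∧ ¬ Sees a N p ℓ).card := by
    have h1 : ∀ ℓ ∈ lns a, (ℓ.filter fun x => ¬ Sees a N x ℓ).card
        = ∑ p : ι, if p ∈ ℓ ∧ ¬ Sees a N p ℓ then 1 else 0 := by
      intro ℓ _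
      rw [← Finset.card_filter]
      congr 1
      ext x
      simp
    have h2 : ∀ p ∈ (univ : Finset ι), ((lns a).filter fun ℓ => p ∈ ℓ ∧ ¬ Sees a N p ℓ).card
        = ∑ ℓ ∈ lns a, if p ∈ ℓ ∧ ¬ Sees a N p ℓ then 1 else 0 := by
      intro p _
      rw [Finset.card_filter]
    rw [Finset.sum_congr rfl h1, Finset.sum_congr rfl h2]
    exact Finset.sum_comm
  rw [hdc, Finset.mul_sum]
  calc ∑ p : ι, 4 * ((lns a).filter fun ℓ => p ∈ ℓ ∧ ¬ Sees a N p ℓ).card
      ≤ ∑ p, ng p := Finset.sum_le_sum fun p _ => hU p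
    _ = ∑ p, bd p + ∑ p, bf p := Finset.sum_add_distrib
    _ ≤ _ := by rw [hsum2]; omega

end Pool.Agent.OMF.H46
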